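import Mathlib

/-! An axiomatizable, saturated, right hereditary abstract class of representations that is not
defined by formulas of action. -/

namespace Pool.Agent.Results.MP_98e941_al.Counter

/-- A representation `(V, G)` over `K`: a right action of `G` on `V` by `K`-linear automorphisms. -/
structure Rp (K : Type) [Ring K] where
  V : Type
  G : Type
  [iV : AddCommGroup V]
  [iM : Module K V]
  [iG : Group G]
  σ : G →* (V ≃ₗ[K] V)ᵐᵒᵖ

attribute [instance] Rp.iV Rp.iM Rp.iG

variable {K : Type} [Ring K]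

/-- `v ∘ g`. -/
def Rp.act (ρ : Rp K) (v : ρ.V) (g : ρ.G) : ρ.V := (ρ.σ g).unop v

/-- The faithful representation `(V, G / N)`. -/
noncomputable def Rp.faithful (ρ : Rp K) : Rp K :=
  { V := ρ.V, G := ρ.G ⧸ ρ.σ.ker, σ := QuotientGroup.kerLift ρ.σ }

/-- The subrepresentation `(V, H)`. -/
def Rp.sub (ρ : Rp K) (H : Subgroup ρ.G) : Rp K := { V := ρ.V, G := H, σ := ρ.σ.comp H.subtype }

/-- Isomorphism of representations. -/
def Rp.Iso (ρ τ : Rp K) : Prop :=
  ∃ (e : ρ.V ≃ₗ[K] τ.V) (θ : ρ.G ≃* τ.G), ∀ v g, e (ρ.act v g) = τ.act (e v) (θ g)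

/-- First-order formulas; module variables and group variables are indexed by `ℕ`. -/
inductive Form (K : Type) [Ring K]
  | act : List (ℕ × MonoidAlgebra K (FreeGroup ℕ)) → Form K
  | one : FreeGroup ℕ → Form K
  | and : Form K → Form K → Form K
  | or : Form K → Form K → Form K
  | not : Form K → Form K
  | allX : ℕ → Form K → Form K
  | exX : ℕ → Form K → Form K
  | allY : ℕ → Form K → Form K
  | exY : ℕ → Form K → Form K

/-- Satisfaction under an assignment. -/
def Sat (ρ : Rp K) : Form K → (ℕ → ρ.V) → (ℕ → ρ.G) → Prop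
  | .act l, a, b =>
    (l.map fun p => p.2.coeff.sum fun f c => c • ρ.act (a p.1) (FreeGroup.lift b f)).sum = 0
  | .one f, _, b => FreeGroup.lift b f = 1
  | .and φ ψ, a, b => Sat ρ φ a b ∧ Sat ρ ψ a b
  | .or φ ψ, a, b => Sat ρ φ a b ∨ Sat ρ ψ a b
  | .not φ, a, b => ¬ Sat ρ φ a b
  | .allX n φ, a, b => ∀ v, Sat ρ φ (Function.update a n v) b
  | .exX n φ, a, b => ∃ v, Sat ρ φ (Function.update a n v) b
  | .allY n φ, a, b => ∀ g, Sat ρ φ a (Function.update b n g)
  | .exY n φ, a, b => ∃ g, Sat ρ φ a (Function.update b n g)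

/-- Formulas of action. -/
def IsAction : Form K → Prop
  | .act _ => True
  | .one _ => False
  | .and φ ψ => IsAction φ ∧ IsAction ψ
  | .or φ ψ => IsAction φ ∧ IsAction ψ
  | .not φ => IsAction φ
  | .allX _ φ => IsAction φ
  | .exX _ φ => IsAction φ
  | .allY _ _ => False
  | .exY _ _ => False

/-- The class `𝒳` is defined by the set `T` of formulas. -/
def DefinedBy (𝒳 : Rp K → Prop) (T : Set (Form K)) : Prop :=
  ∀ ρ, 𝒳 ρ ↔ ∀ φ ∈ T, ∀ a b, Sat ρ φ a b

/-- The class of representations with a vector fixed only by the kernel of the action. -/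
def Reg (ρ : Rp K) : Prop := ∃ v, ∀ g, ρ.act v g = v → ∀ w, ρ.act w g = w

/-- The formula `x_n ∘ y_0 = x_n`. -/
noncomputable def fix (n : ℕ) : Form K :=
  .act [(n, MonoidAlgebra.single (FreeGroup.of 0) 1), (n, MonoidAlgebra.single 1 (-1))]

theorem sat_fix (ρ : Rp K) (n : ℕ) (a : ℕ → ρ.V) (b : ℕ → ρ.G) :
    Sat ρ (fix n) a b ↔ ρ.act (a n) (b 0) = a n := by
  simp only [fix, Sat, List.map_cons, List.map_nil, List.sum_cons, List.sum_nil, add_zero,
    MonoidAlgebra.coeff_single]
  rw [Finsupp.sum_single_index (by simp), Finsupp.sum_single_index (by simp)]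
  simp [Rp.act, add_neg_eq_zero]

open Filter Filter.Germ

/-- The ultrapower of the module sort. -/
noncomputable def Rp.ult (ρ : Rp K) : Rp K where
  V := Germ (hyperfilter ℕ : Filter ℕ) ρ.V
  G := ρ.G
  σ := MonoidHom.toHomUnits (M := (Module.End K (Germ (hyperfilter ℕ : Filter ℕ) ρ.V))ᵐᵒᵖ)
    { toFun := fun g => MulOpposite.op
        { toFun := Germ.map fun v => ρ.act v g
          map_add' := fun x y => inductionOn₂ x y fun f h => by
            rw [← coe_add, map_coe, map_coe, map_coe, ← coe_add]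
            exact congrArg _ (funext fun i => map_add _ _ _)
          map_smul' := fun c x => inductionOn x fun f => by
            rw [← coe_smul, map_coe, map_coe, ← coe_smul]
            exact congrArg _ (funext fun i => map_smul _ _ _) }
      map_one' := congrArg MulOpposite.op (LinearMap.ext fun x => inductionOn x fun f => by
        simp [Rp.act, Function.comp_def])
      map_mul' := fun g h => congrArg MulOpposite.op (LinearMap.ext fun x => inductionOn x fun f => by
        simp [Rp.act, Function.comp_def]) }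
    |> (((LinearMap.GeneralLinearGroup.generalLinearEquiv K _).op.toMonoidHom).comp
      Units.opEquiv.toMonoidHom).comp

/-- The germ of a sequence. -/
noncomputable def gm (ρ : Rp K) : (ℕ → ρ.V) →ₗ[K] ρ.ult.V where
  toFun f := ofFun f
  map_add' _ _ := rfl
  map_smul' _ _ := rfl

theorem ult_act (ρ : Rp K) (f : ℕ → ρ.V) (g : ρ.G) :
    ρ.ult.act (gm ρ f) g = gm ρ fun i => ρ.act (f i) g := rfl

theorem gm_eq (ρ : Rp K) (f g : ℕ → ρ.V) :
    gm ρ f = gm ρ g ↔ ∀ᶠ i in (hyperfilter ℕ : Filter ℕ), f i = g i := coe_eq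

theorem gm_surj (ρ : Rp K) (v : ρ.ult.V) : ∃ f, gm ρ f = v := Germ.inductionOn v fun f => ⟨f, rfl⟩

theorem los (ρ : Rp K) (φ : Form K) (hφ : IsAction φ) (b : ℕ → ρ.G) : ∀ a : ℕ → ℕ → ρ.V,
    Sat ρ.ult φ (fun n => gm ρ (a n)) b ↔
      ∀ᶠ i in (hyperfilter ℕ : Filter ℕ), Sat ρ φ (fun n => a n i) b := by
  have hu : ∀ (a : ℕ → ℕ → ρ.V) n f, Function.update (fun n => gm ρ (a n)) n (gm ρ f) =
      fun m => gm ρ (Function.update a n f m) := fun a n f =>
    (Function.comp_update (gm ρ) a n f).symm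
  have hu' : ∀ (a : ℕ → ℕ → ρ.V) n f i, (fun m => Function.update a n f m i) =
      Function.update (fun m => a m i) n (f i) := fun a n f i =>
    Function.comp_update (fun f : ℕ → ρ.V => f i) a n f
  have hex : ∀ n (ψ : Form K), (∀ a : ℕ → ℕ → ρ.V, Sat ρ.ult ψ (fun n => gm ρ (a n)) b ↔
      ∀ᶠ i in (hyperfilter ℕ : Filter ℕ), Sat ρ ψ (fun n => a n i) b) → ∀ (s : Prop → Prop)
      (_ : s = id ∨ s = Not) (a : ℕ → ℕ → ρ.V),
      (∃ v, s (Sat ρ.ult ψ (Function.update (fun n => gm ρ (a n)) n v) b)) ↔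
      ∀ᶠ i in (hyperfilter ℕ : Filter ℕ),
        ∃ v, s (Sat ρ ψ (Function.update (fun n => a n i) n v) b) := by
    intro n ψ ih s hs a
    have ih' : ∀ a : ℕ → ℕ → ρ.V, s (Sat ρ.ult ψ (fun n => gm ρ (a n)) b) ↔
        ∀ᶠ i in (hyperfilter ℕ : Filter ℕ), s (Sat ρ ψ (fun n => a n i) b) := fun a => by
      rcases hs with rfl | rfl
      · exact ih a
      · rw [Ultrafilter.eventually_not, ← ih]
    refine ⟨fun ⟨v, hv⟩ => ?_, fun h => ?_⟩
    · obtain ⟨f, rfl⟩ := gm_surj ρ v
      rw [hu, ih'] at hv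
      exact hv.mono fun i hi => ⟨f i, by rwa [hu'] at hi⟩
    · obtain ⟨f, hf⟩ := h.choice
      refine ⟨gm ρ f, ?_⟩
      rw [hu, ih']
      exact hf.mono fun i hi => by rwa [hu']
  induction φ with
  | act l =>
    intro a
    have : (l.map fun p => p.2.coeff.sum fun f c =>
        c • ρ.ult.act (gm ρ (a p.1)) (FreeGroup.lift b f)).sum = gm ρ fun i =>
        (l.map fun p => p.2.coeff.sum fun f c => c • ρ.act (a p.1 i) (FreeGroup.lift b f)).sum := by
      induction l with
      | nil => rfl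
      | cons p l ih =>
        simp only [List.map_cons, List.sum_cons]
        rw [ih trivial]
        simp only [Finsupp.sum]
        rw [Finset.sum_congr rfl fun f _ => (by rw [map_smul]; rfl :
          p.2.coeff f • ρ.ult.act (gm ρ (a p.1)) (FreeGroup.lift b f) =
            gm ρ (p.2.coeff f • fun i => ρ.act (a p.1 i) (FreeGroup.lift b f))), ← map_sum,
          ← map_add]
        exact congrArg _ (funext fun i => by simp)
    exact (congrArg (· = 0) this).to_iff.trans (gm_eq ρ _ 0)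
  | one f => exact hφ.elim
  | and φ ψ h1 h2 => intro a; exact (and_congr (h1 hφ.1 a) (h2 hφ.2 a)).trans eventually_and.symm
  | or φ ψ h1 h2 =>
    intro a; exact (or_congr (h1 hφ.1 a) (h2 hφ.2 a)).trans Ultrafilter.eventually_or.symm
  | not φ h => intro a; exact (not_congr (h hφ a)).trans Ultrafilter.eventually_not.symm
  | allX n φ h =>
    intro a
    have := not_congr (hex n φ (h hφ) Not (Or.inr rfl) a)
    rw [← Ultrafilter.eventually_not] at this
    simp only [not_exists, not_not] at this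
    exact this
  | exX n φ h => exact hex n φ (h hφ) id (Or.inl rfl)
  | allY n φ h => exact hφ.elim
  | exY n φ h => exact hφ.elim

/-- Sign changes acting on finitely supported sequences. -/
noncomputable def ex : Rp ℚ where
  V := ℕ →₀ ℚ
  G := ℕ → ℚˣ
  σ :=
    { toFun := fun g => MulOpposite.op (Finsupp.mapRange.linearEquiv (LinearEquiv.refl ℚ ℚ) ≪≫ₗ
        LinearEquiv.ofLinearMap (Finsupp.lsum ℚ fun i => (g i : ℚ) • Finsupp.lsingle i)
          (Finsupp.lsum ℚ fun i => ((g i)⁻¹ : ℚ) • Finsupp.lsingle i)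
          (by ext i j; simp [Finsupp.single_apply]) (by ext i j; simp [Finsupp.single_apply]))
      map_one' := congrArg MulOpposite.op (LinearEquiv.toLinearMap_injective (by ext i j; simp))
      map_mul' := fun g h => congrArg MulOpposite.op (LinearEquiv.toLinearMap_injective (by
        ext i j; simp [mul_comm])) }

/-- Coordinates. -/
def co (v : ex.V) : ℕ →₀ ℚ := v

theorem ex_act (v : ℕ →₀ ℚ) (g : ℕ → ℚˣ) (i : ℕ) : co (ex.act v g) i = g i * v i := by
  induction v using Finsupp.induction_linear with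
  | zero =>
    rw [Finsupp.zero_apply, mul_zero]
    exact congrArg (fun x : ℕ →₀ ℚ => x i) (map_zero (ex.σ g).unop)
  | add u v hu hv =>
    rw [Finsupp.add_apply, mul_add, ← hu, ← hv]
    exact congrArg (fun x : ℕ →₀ ℚ => x i) (map_add (ex.σ g).unop u v)
  | single j c =>
    show (Finsupp.lsum ℚ (fun i => (g i : ℚ) • Finsupp.lsingle i)
      (Finsupp.mapRange.linearEquiv (LinearEquiv.refl ℚ ℚ) (Finsupp.single j c)) : ℕ →₀ ℚ) i = _
    by_cases h : j = i
    · subst h; simp
    · simp [h]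

theorem result : ∃ (K : Type) (_ : Ring K) (𝒳 : Rp K → Prop),
    (∀ ρ τ, ρ.Iso τ → 𝒳 ρ → 𝒳 τ) ∧ (∃ T, DefinedBy 𝒳 T) ∧ (∀ ρ, 𝒳 ρ ↔ 𝒳 ρ.faithful) ∧
    (∀ ρ H, 𝒳 ρ → 𝒳 (ρ.sub H)) ∧ ¬ ∃ T, (∀ φ ∈ T, IsAction φ) ∧ DefinedBy 𝒳 T := by
  classical
  refine ⟨ℚ, inferInstance, Reg, ?_, ⟨{.exX 0 (.allY 0 (.or (.not (fix 0)) (.allX 1 (fix 1))))},
    fun ρ => ?_⟩, fun ρ => ?_, ?_, ?_⟩
  · rintro ρ τ ⟨e, θ, h⟩ ⟨v, hv⟩
    refine ⟨e v, fun g hg w => ?_⟩
    obtain ⟨g, rfl⟩ := θ.surjective g
    obtain ⟨w, rfl⟩ := e.surjective w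
    rw [← h, hv g (e.injective (by rw [h, hg]))]
  · simp only [Set.mem_singleton_iff, forall_eq, Sat, sat_fix, Function.update_self, ← imp_iff_not_or]
    exact ⟨fun h _ _ => h, fun h => h 0 1⟩
  · exact exists_congr fun v => ⟨fun h g => QuotientGroup.induction_on g h, fun h g => h (QuotientGroup.mk g)⟩
  · rintro ρ H ⟨v, hv⟩
    exact ⟨v, fun g => hv g.1⟩
  · rintro ⟨T, hT, h⟩
    have h1 : Reg ex.ult := by
      refine ⟨gm ex fun n => (∑ i ∈ Finset.range n, Finsupp.single i 1 : ℕ →₀ ℚ), fun g hg w => ?_⟩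
      have : g = 1 := funext fun i => by
        obtain ⟨n, hn, hi⟩ := (((gm_eq ex _ _).1 ((ult_act ex _ g).symm.trans hg)).and (Nat.hyperfilter_le_atTop
          (eventually_gt_atTop i))).exists
        have := ex_act (∑ i ∈ Finset.range n, Finsupp.single i 1) g i
        rw [hn] at this
        simp [co, Finsupp.finsetSum_apply, Finsupp.single_apply, hi] at this
        exact Units.ext this.symm
      rw [this, Rp.act, map_one]; rfl
    obtain ⟨v, hv⟩ : Reg ex := (h _).2 fun φ hφ a b =>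
      ((los ex φ (hT φ hφ) b fun n _ => a n).1 ((h _).1 h1 φ hφ _ b)).exists.choose_spec
    obtain ⟨n, hn⟩ := Infinite.exists_notMem_finset (co v).support
    have h2 := hv (Function.update 1 n (-1)) (Finsupp.ext fun i => by
      refine (ex_act (co v) _ i).trans (show _ = co v i from ?_)
      by_cases hi : i = n
      · subst hi; rw [Finsupp.notMem_support_iff.1 hn, mul_zero]
      · simp [hi]) (Finsupp.single n 1)
    have h3 := ex_act (Finsupp.single n 1) (Function.update 1 n (-1)) n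
    rw [h2] at h3
    norm_num [co] at h3

end Pool.Agent.Results.MP_98e941_al.Counter
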